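import Pool.Agent.Run7.h568.DG.CIface

/-!
# Project DG, piece C_comb: combinatorics of strands
-/

set_option autoImplicit false

open Real Matrix

noncomputable section

namespace Run7.h468.DG

open Run7.h568.DG

variable {D : Type} [Fintype D] [DecidableEq D]

theorem comb_out (T : Tri D) (c : D → ℕ) (d : D) (i : ℕ) (hi : i < T.num c d) :
    (Portal.out (T := T) c (d, i)).2 < T.num c (Portal.out (T := T) c (d, i)).1 ∧
    Portal.out (T := T) c (Portal.out (T := T) c (d, i)) = (d, i) ∧
    Tri.sbit c (Portal.out (T := T) c (d, i)) = !(Tri.sbit c (d, i)) := by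
  unfold Tri.num at hi
  by_cases h : i < c d
  · have e1 : Portal.out (T := T) c (d, i) =
        (T.sg (T.sg d), c (T.sg (T.sg d)) + c d - 1 - i) := by
      unfold Portal.out Tri.num
      simp only [if_pos h, T.sg3]
    rw [e1]
    refine ⟨?_, ?_, ?_⟩
    · unfold Tri.num; simp only [T.sg3]; omega
    · unfold Portal.out Tri.num
      have h2 : ¬ (c (T.sg (T.sg d)) + c d - 1 - i < c (T.sg (T.sg d))) := by omega
      simp only [if_neg h2, T.sg3]
      congr 1
      omega
    · unfold Tri.sbit
      have h2 : c (T.sg (T.sg d)) ≤ c (T.sg (T.sg d)) + c d - 1 - i := by omega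
      have h3 : ¬ c d ≤ i := by omega
      simp [h2, h3]
  · have e1 : Portal.out (T := T) c (d, i) = (T.sg d, c d + c (T.sg d) - 1 - i) := by
      unfold Portal.out Tri.num
      simp only [if_neg h]
    rw [e1]
    refine ⟨?_, ?_, ?_⟩
    · unfold Tri.num; simp only; omega
    · unfold Portal.out Tri.num
      have h2 : c d + c (T.sg d) - 1 - i < c (T.sg d) := by omega
      simp only [if_pos h2, T.sg3]
      congr 1
      omega
    · unfold Tri.sbit
      have h2 : ¬ c (T.sg d) ≤ c d + c (T.sg d) - 1 - i := by omega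
      have h3 : c d ≤ i := by omega
      simp [h2, h3]

theorem comb_cross (T : Tri D) (P : Portal T) (c : D → ℕ) (a : ℕ) (hM : P.Match c a) (d : D)
    (i : ℕ) (hi : i < T.num c d) :
    (P.cross c a (d, i)).2 < T.num c (P.cross c a (d, i)).1 ∧
      P.cross c a (P.cross c a (d, i)) = (d, i) := by
  obtain ⟨hm1, hm2, hm3⟩ := hM
  have n1 : P.v ≠ T.io P.u := P.hne
  have n2 : P.u ≠ P.v := P.huv 0
  have n3 : P.u ≠ T.io P.u := (T.io_ne _).symm
  have n4 : P.v ≠ T.io P.v := (T.io_ne _).symm
  have n5 : P.u ≠ T.io P.v := fun h => n1 (by rw [h, T.io_io])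
  have n6 : T.io P.v ≠ T.io P.u := fun h => n2 (T.io.injective h).symm
  by_cases h1 : d = T.io P.u
  · subst h1
    by_cases h2 : T.num c P.u ≤ i
    · have e1 : P.cross c a (T.io P.u, i) = (P.v, T.num c (T.io P.u) - 1 - i) := by
        unfold Portal.cross; simp [h2]
      rw [e1]
      refine ⟨by simp only; omega, ?_⟩
      have h3 : T.num c (T.io P.u) - 1 - i < a := by omega
      unfold Portal.cross
      simp only [if_neg n1, if_true, if_pos h3]
      congr 1
      omega
    · have e1 : P.cross c a (T.io P.u, i) = (P.u, T.num c P.u - 1 - i) := by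
        unfold Portal.cross; simp [h2]
      rw [e1]
      refine ⟨by simp only; omega, ?_⟩
      unfold Portal.cross
      simp only [if_neg n3, if_neg n2, if_neg n5]
      congr 1
      omega
  by_cases h4 : d = P.v
  · subst h4
    by_cases h2 : i < a
    · have e1 : P.cross c a (P.v, i) = (T.io P.u, T.num c (T.io P.u) - 1 - i) := by
        unfold Portal.cross; simp [h1, h2]
      rw [e1]
      refine ⟨by simp only; omega, ?_⟩
      have h3 : T.num c P.u ≤ T.num c (T.io P.u) - 1 - i := by omega
      unfold Portal.cross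
      simp only [if_true, if_pos h3]
      congr 1
      omega
    · have e1 : P.cross c a (P.v, i) = (T.io P.v, T.num c P.v - 1 - i) := by
        unfold Portal.cross; simp [h1, h2]
      rw [e1]
      refine ⟨by simp only; omega, ?_⟩
      unfold Portal.cross
      simp only [if_neg n6, if_neg n4.symm, if_true]
      congr 1
      omega
  by_cases h5 : d = T.io P.v
  · subst h5
    have e1 : P.cross c a (T.io P.v, i) = (P.v, T.num c P.v - 1 - i) := by
      unfold Portal.cross; simp only [if_neg h1, if_neg h4, if_true]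
    rw [e1]
    refine ⟨by simp only; omega, ?_⟩
    have h3 : ¬ T.num c P.v - 1 - i < a := by omega
    unfold Portal.cross
    simp only [if_neg n1, if_true, if_neg h3]
    congr 1
    omega
  have e1 : P.cross c a (d, i) = (T.io d, T.num c d - 1 - i) := by
    unfold Portal.cross; simp only [if_neg h1, if_neg h4, if_neg h5]
  rw [e1]
  by_cases h6 : d = P.u
  · subst h6
    refine ⟨by simp only; omega, ?_⟩
    have h3 : ¬ T.num c P.u ≤ T.num c P.u - 1 - i := by omega
    unfold Portal.cross
    simp only [if_true, if_neg h3]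
    congr 1
    omega
  · have hns : ¬ P.Special d := by
      rintro (h | h | h | h)
      · exact h6 h
      · exact h1 h
      · exact h4 h
      · exact h5 h
    have hn := hm1 d hns
    refine ⟨by simp only; omega, ?_⟩
    have m1 : T.io d ≠ T.io P.u := fun h => h6 (T.io.injective h)
    have m2 : T.io d ≠ P.v := fun h => h5 (by rw [← h, T.io_io])
    have m3 : T.io d ≠ T.io P.v := fun h => h4 (T.io.injective h)
    unfold Portal.cross
    simp only [if_neg m1, if_neg m2, if_neg m3, T.io_io]
    congr 1
    omega

theorem comb : C_comb := by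
  intro D _ _ T P c a hM w hw
  obtain ⟨d, i⟩ := w
  obtain ⟨h1, h2, h3⟩ := comb_out T c d i hw
  obtain ⟨h4, h5⟩ := comb_cross T P c a hM d i hw
  refine ⟨h1, h2, h3, h4, h5, ?_⟩
  exact (comb_cross T P c a hM _ _ h1).1

end Run7.h468.DG
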