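import Pool.Agent.Run7.h568.DG.CIface

/-!
# Project DG, piece C_J: turns, rotations, and the crossing of `α`
-/

set_option autoImplicit false

open Real Matrix

noncomputable section

namespace Run7.h468.DG

open Run7.h568.DG

variable {D : Type} [Fintype D] [DecidableEq D]

theorem J_step (s : ℝ) : (step false s).1 0 0 = exp (-s / 2) ∧ (step false s).1 0 1 = 0 ∧
    (step false s).1 1 0 = exp (-s / 2) ∧ (step false s).1 1 1 = exp (s / 2) := by
  have h : (step false s).1 = !![1, 0; 1, 1] * !![exp (-s / 2), 0; 0, exp (s / 2)] := rfl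
  rw [h, Matrix.mul_fin_two]
  simp

theorem J_mul (g h : SL) : (g * h).1 0 0 = g.1 0 0 * h.1 0 0 + g.1 0 1 * h.1 1 0 ∧
    (g * h).1 0 1 = g.1 0 0 * h.1 0 1 + g.1 0 1 * h.1 1 1 ∧
    (g * h).1 1 0 = g.1 1 0 * h.1 0 0 + g.1 1 1 * h.1 1 0 ∧
    (g * h).1 1 1 = g.1 1 0 * h.1 0 1 + g.1 1 1 * h.1 1 1 := by
  have e : (g * h).1 = g.1 * h.1 := rfl
  rw [e]
  simp [Matrix.mul_apply, Fin.sum_univ_two]

theorem J_turns_succ (T : Tri D) (x : D → ℝ) (hx : ∀ d, x (T.io d) = x d) (d : D) (j : ℕ) :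
    Portal.turns (T := T) x d (j + 1) =
      step false (x (T.rho d)) * Portal.turns (T := T) x (T.rho d) j := by
  have e : Portal.turns (T := T) x d (j + 1) =
      step false (x (T.sg (T.sg d))) * Portal.turns (T := T) x (T.io (T.sg (T.sg d))) j := rfl
  have e2 : T.rho d = T.io (T.sg (T.sg d)) := rfl
  rw [e, e2, hx]

theorem J_turns_one (T : Tri D) (x : D → ℝ) (d : D) : Portal.turns (T := T) x d 0 = 1 := rfl

theorem J_turns (T : Tri D) (x : D → ℝ) (hx : ∀ d, x (T.io d) = x d) (j : ℕ) : ∀ d : D,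
    (Portal.turns (T := T) x d j).1 0 1 = 0 ∧
    (Portal.turns (T := T) x d j).1 0 0 = exp (-(∑ i ∈ Finset.range j, x (T.rho^[i + 1] d)) / 2) ∧
    (Portal.turns (T := T) x d j).1 1 1 = exp ((∑ i ∈ Finset.range j, x (T.rho^[i + 1] d)) / 2) ∧
    0 ≤ (Portal.turns (T := T) x d j).1 1 0 ∧ (0 < j → 0 < (Portal.turns (T := T) x d j).1 1 0) := by
  induction j with
  | zero =>
    intro d
    rw [J_turns_one]
    simp
  | succ j ih =>
    intro d
    obtain ⟨h1, h2, h3, h4, -⟩ := ih (T.rho d)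
    obtain ⟨s1, s2, s3, s4⟩ := J_step (x (T.rho d))
    obtain ⟨m1, m2, m3, m4⟩ := J_mul (step false (x (T.rho d))) (Portal.turns (T := T) x (T.rho d) j)
    rw [J_turns_succ T x hx, m1, m2, m3, m4, s1, s2, s3, s4, h1, h2, h3]
    have hsum : ∑ i ∈ Finset.range (j + 1), x (T.rho^[i + 1] d) =
        x (T.rho d) + ∑ i ∈ Finset.range j, x (T.rho^[i + 1] (T.rho d)) := by
      rw [Finset.sum_range_succ', add_comm]
      congr 1
    rw [hsum]
    have hpos : 0 < exp (-x (T.rho d) / 2) *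
        exp (-(∑ i ∈ Finset.range j, x (T.rho^[i + 1] (T.rho d))) / 2) +
        exp (x (T.rho d) / 2) * (Portal.turns (T := T) x (T.rho d) j).1 1 0 :=
      add_pos_of_pos_of_nonneg (mul_pos (exp_pos _) (exp_pos _)) (mul_nonneg (exp_pos _).le h4)
    refine ⟨by ring, ?_, ?_, hpos.le, fun _ => hpos⟩
    · rw [zero_mul, add_zero, ← exp_add]; congr 1; ring
    · rw [mul_zero, zero_add, ← exp_add]; congr 1; ring

theorem J_rot (T : Tri D) (x : D → ℝ) (hx : ∀ d, x (T.io d) = x d) (d : D) :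
    (Portal.rot (T := T) x d).1 0 1 = 0 ∧
    (Portal.rot (T := T) x d).1 0 0 = exp (-(T.cyc x d) / 2) ∧
      (Portal.rot (T := T) x d).1 1 1 = exp (T.cyc x d / 2) ∧
      0 < (Portal.rot (T := T) x d).1 1 0 := by
  have hinj : Function.Injective T.rho := by
    intro a b hab
    have h1 : T.io (T.sg (T.sg a)) = T.io (T.sg (T.sg b)) := hab
    exact T.sg.injective (T.sg.injective (T.io.injective h1))
  have hper : 0 < Function.minimalPeriod T.rho d :=
    Function.minimalPeriod_pos_of_mem_periodicPts (hinj.mem_periodicPts d)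
  obtain ⟨h1, h2, h3, -, h5⟩ := J_turns T x hx (Function.minimalPeriod T.rho d) d
  have hsum : ∑ i ∈ Finset.range (Function.minimalPeriod T.rho d), x (T.rho^[i + 1] d) =
      T.cyc x d := by
    unfold Tri.cyc
    have h6 := Finset.sum_range_succ (fun i => x (T.rho^[i] d)) (Function.minimalPeriod T.rho d)
    have h7 := Finset.sum_range_succ' (fun i => x (T.rho^[i] d)) (Function.minimalPeriod T.rho d)
    have h8 : T.rho^[Function.minimalPeriod T.rho d] d = d := Function.iterate_minimalPeriod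
    rw [h6] at h7
    simp only [h8, Function.iterate_zero, id] at h7
    linarith
  rw [hsum] at h2 h3
  exact ⟨h1, h2, h3, h5 hper⟩

/-- the matrices `rot u ^ n * J` -/
def JM (B B' l z : ℝ) : SL :=
  ⟨!![exp (z / 2), 0; (B * exp (z / 2) + B' * exp (-z / 2)) / (2 * sinh (l / 2)), exp (-z / 2)], by
    rw [Matrix.det_fin_two]
    change exp (z / 2) * exp (-z / 2) - 0 * _ = 1
    rw [zero_mul, sub_zero, ← exp_add]
    have : z / 2 + -z / 2 = 0 := by ring
    rw [this, exp_zero]⟩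

theorem JM_mul (g : SL) (B B' l z : ℝ) (hl : 0 < l) (h0 : g.1 0 1 = 0)
    (h1 : g.1 0 0 = exp (l / 2)) (h2 : g.1 1 1 = exp (-l / 2)) (h3 : g.1 1 0 = B) :
    g * JM B B' l z = JM B B' l (z + l) := by
  have hs : 0 < sinh (l / 2) := by rw [sinh_pos_iff]; linarith
  have hs2 : 2 * sinh (l / 2) = exp (l / 2) - exp (-l / 2) := by
    rw [sinh_eq]
    have : -(l / 2) = -l / 2 := by ring
    rw [this]; ring
  obtain ⟨m1, m2, m3, m4⟩ := J_mul g (JM B B' l z)
  have a1 : (JM B B' l z).1 0 0 = exp (z / 2) := rfl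
  have a2 : (JM B B' l z).1 0 1 = 0 := rfl
  have a3 : (JM B B' l z).1 1 0 =
    (B * exp (z / 2) + B' * exp (-z / 2)) / (2 * sinh (l / 2)) := rfl
  have a4 : (JM B B' l z).1 1 1 = exp (-z / 2) := rfl
  have c1 : (JM B B' l (z + l)).1 0 0 = exp ((z + l) / 2) := rfl
  have c2 : (JM B B' l (z + l)).1 0 1 = 0 := rfl
  have c3 : (JM B B' l (z + l)).1 1 0 =
    (B * exp ((z + l) / 2) + B' * exp (-(z + l) / 2)) / (2 * sinh (l / 2)) := rfl
  have c4 : (JM B B' l (z + l)).1 1 1 = exp (-(z + l) / 2) := rfl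
  have x1 : exp ((z + l) / 2) = exp (l / 2) * exp (z / 2) := by
    rw [← exp_add]; congr 1; ring
  have x2 : exp (-(z + l) / 2) = exp (-l / 2) * exp (-z / 2) := by
    rw [← exp_add]; congr 1; ring
  have x3 : exp (l / 2) * exp (-l / 2) = 1 := by
    rw [← exp_add]
    have : l / 2 + -l / 2 = 0 := by ring
    rw [this, exp_zero]
  apply Subtype.ext
  ext i j
  fin_cases i <;> fin_cases j
  · change (g * JM B B' l z).1 0 0 = (JM B B' l (z + l)).1 0 0
    rw [m1, h0, h1, a1, c1, x1]; ring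
  · change (g * JM B B' l z).1 0 1 = (JM B B' l (z + l)).1 0 1
    rw [m2, h0, a2, c2]; ring
  · change (g * JM B B' l z).1 1 0 = (JM B B' l (z + l)).1 1 0
    rw [m3, h2, h3, a1, a3, c3, x1, x2]
    rw [eq_div_iff (by positivity), add_mul, mul_div_assoc', div_mul_cancel₀ _ (by positivity), hs2]
    ring
  · change (g * JM B B' l z).1 1 1 = (JM B B' l (z + l)).1 1 1
    rw [m4, h2, a2, a4, c4, x2]; ring

theorem JM_mul_right (g : SL) (B B' l z : ℝ) (hl : 0 < l) (h0 : g.1 0 1 = 0)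
    (h1 : g.1 0 0 = exp (-l / 2)) (h2 : g.1 1 1 = exp (l / 2)) (h3 : g.1 1 0 = B') :
    JM B B' l (z + l) * g = JM B B' l z := by
  have hs : 0 < sinh (l / 2) := by rw [sinh_pos_iff]; linarith
  have hs2 : 2 * sinh (l / 2) = exp (l / 2) - exp (-l / 2) := by
    rw [sinh_eq]
    have : -(l / 2) = -l / 2 := by ring
    rw [this]; ring
  obtain ⟨m1, m2, m3, m4⟩ := J_mul (JM B B' l (z + l)) g
  have a1 : (JM B B' l z).1 0 0 = exp (z / 2) := rfl
  have a2 : (JM B B' l z).1 0 1 = 0 := rfl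
  have a3 : (JM B B' l z).1 1 0 =
    (B * exp (z / 2) + B' * exp (-z / 2)) / (2 * sinh (l / 2)) := rfl
  have a4 : (JM B B' l z).1 1 1 = exp (-z / 2) := rfl
  have c1 : (JM B B' l (z + l)).1 0 0 = exp ((z + l) / 2) := rfl
  have c2 : (JM B B' l (z + l)).1 0 1 = 0 := rfl
  have c3 : (JM B B' l (z + l)).1 1 0 =
    (B * exp ((z + l) / 2) + B' * exp (-(z + l) / 2)) / (2 * sinh (l / 2)) := rfl
  have c4 : (JM B B' l (z + l)).1 1 1 = exp (-(z + l) / 2) := rfl
  have x1 : exp ((z + l) / 2) = exp (l / 2) * exp (z / 2) := by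
    rw [← exp_add]; congr 1; ring
  have x2 : exp (-(z + l) / 2) = exp (-l / 2) * exp (-z / 2) := by
    rw [← exp_add]; congr 1; ring
  have x3 : exp (l / 2) * exp (-l / 2) = 1 := by
    rw [← exp_add]
    have : l / 2 + -l / 2 = 0 := by ring
    rw [this, exp_zero]
  apply Subtype.ext
  ext i j
  fin_cases i <;> fin_cases j
  · change (JM B B' l (z + l) * g).1 0 0 = (JM B B' l z).1 0 0
    rw [m1, h1, c1, c2, a1, x1]
    linear_combination exp (z / 2) * x3
  · change (JM B B' l (z + l) * g).1 0 1 = (JM B B' l z).1 0 1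
    rw [m2, h0, c2, a2]; ring
  · change (JM B B' l (z + l) * g).1 1 0 = (JM B B' l z).1 1 0
    rw [m3, h1, h3, c3, c4, a3, x1, x2]
    rw [eq_div_iff (by positivity), add_mul, div_mul_eq_mul_div, div_mul_cancel₀ _ (by positivity),
      hs2]
    linear_combination (B * exp (z / 2) + B' * exp (-z / 2)) * x3
  · change (JM B B' l (z + l) * g).1 1 1 = (JM B B' l z).1 1 1
    rw [m4, h0, h2, c4, a4, x2]
    linear_combination exp (-z / 2) * x3

theorem CJ : C_J := by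
  intro D _ _ T P p hp
  obtain ⟨hx, hl, hcu, -⟩ := hp
  have hs : 0 < sinh (T.cyc p.1 P.v / 2) := by rw [sinh_pos_iff]; linarith
  obtain ⟨u1, u2, u3, u4⟩ := J_rot T p.1 hx P.u
  obtain ⟨v1, v2, v3, v4⟩ := J_rot T p.1 hx P.v
  rw [hcu] at u2 u3
  have hJ : P.J p = JM ((Portal.rot (T := T) p.1 P.u).1 1 0) ((Portal.rot (T := T) p.1 P.v).1 1 0)
      (T.cyc p.1 P.v) p.2 := rfl
  have hu2 : (Portal.rot (T := T) p.1 P.u).1 0 0 = exp (T.cyc p.1 P.v / 2) := by
    rw [u2]; congr 1; ring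
  have hpow : ∀ n : ℤ, Portal.rot (T := T) p.1 P.u ^ n * P.J p =
      JM ((Portal.rot (T := T) p.1 P.u).1 1 0) ((Portal.rot (T := T) p.1 P.v).1 1 0)
      (T.cyc p.1 P.v) (n * T.cyc p.1 P.v + p.2) := by
    intro n
    induction n using Int.induction_on with
    | zero => rw [zpow_zero, one_mul, hJ]; simp
    | succ n ih =>
      rw [add_comm, _root_.zpow_add, zpow_one, mul_assoc, ih,
        JM_mul _ _ _ _ _ hl u1 hu2 u3 rfl]
      congr 1
      push_cast; ring
    | pred n ih =>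
      have e1 := JM_mul (Portal.rot (T := T) p.1 P.u) ((Portal.rot (T := T) p.1 P.u).1 1 0)
        ((Portal.rot (T := T) p.1 P.v).1 1 0) (T.cyc p.1 P.v)
        (((-(n : ℤ) - 1 : ℤ) : ℝ) * T.cyc p.1 P.v + p.2) hl u1 hu2 u3 rfl
      have e2 : ((-(n : ℤ) - 1 : ℤ) : ℝ) * T.cyc p.1 P.v + p.2 + T.cyc p.1 P.v =
          ((-(n : ℤ) : ℤ) : ℝ) * T.cyc p.1 P.v + p.2 := by push_cast; ring
      rw [e2, ← ih] at e1
      have e3 : Portal.rot (T := T) p.1 P.u ^ (-(n : ℤ)) =
          Portal.rot (T := T) p.1 P.u * Portal.rot (T := T) p.1 P.u ^ (-(n : ℤ) - 1) := by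
        rw [← _root_.zpow_one_add]; congr 1; ring
      rw [e3, mul_assoc] at e1
      exact (mul_left_cancel e1).symm
  refine ⟨fun d j => ?_, fun d => ?_, ?_, ?_, fun n => ?_⟩
  · obtain ⟨h1, h2, h3, h4, h5⟩ := J_turns T p.1 hx j d
    refine ⟨h1, ?_, ?_, h4, h5⟩
    · rw [h2]; exact exp_pos _
    · rw [h3]; exact exp_pos _
  · obtain ⟨-, h2, h3, h4⟩ := J_rot T p.1 hx d
    exact ⟨h2, h3, h4⟩
  · rw [eq_mul_inv_iff_mul_eq, hJ, JM_mul _ _ _ _ _ hl u1 hu2 u3 rfl]
    refine JM_mul_right _ _ _ _ _ hl v1 ?_ v3 rfl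
    rw [v2]
  · rw [hJ]
    change 0 < (_ * exp (p.2 / 2) + _ * exp (-p.2 / 2)) / (2 * sinh (T.cyc p.1 P.v / 2))
    positivity
  · rw [hpow n]
    rfl

end Run7.h468.DG
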