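import Pool.Agent.Run7.h568.DG.CIface

/-!
# Project DG, piece C_uniq
-/

set_option autoImplicit false

open Real Matrix

noncomputable section

namespace Run7.h468.DG

open Run7.h568.DG

theorem uniq_k {k k' : SL} (h : W * k' = k * W) (h0 : k.1 0 1 = 0) (h0' : k'.1 0 1 = 0) :
    k.1 1 0 = 0 ∧ k'.1 0 0 = k.1 1 1 ∧ k'.1 1 0 = k'.1 0 0 - k.1 0 0 ∧
      k.1 0 0 * k.1 1 1 = 1 := by
  have h1 : W.1 * k'.1 = k.1 * W.1 := by
    have := congrArg Subtype.val h
    rwa [Matrix.SpecialLinearGroup.coe_mul, Matrix.SpecialLinearGroup.coe_mul] at this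
  have e00 := congrFun (congrFun h1 0) 0
  have e01 := congrFun (congrFun h1 0) 1
  have e10 := congrFun (congrFun h1 1) 0
  have e11 := congrFun (congrFun h1 1) 1
  rw [Matrix.mul_apply, Matrix.mul_apply, Fin.sum_univ_two, Fin.sum_univ_two] at e00 e01 e10 e11
  have w00 : W.1 0 0 = 1 := rfl
  have w01 : W.1 0 1 = -1 := rfl
  have w10 : W.1 1 0 = 1 := rfl
  have w11 : W.1 1 1 = 0 := rfl
  rw [w00, w01, w10] at e00
  rw [w00, w01, w11] at e01
  rw [w10, w11, w00] at e10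
  rw [w10, w11, w01] at e11
  have hd := k.2
  rw [Matrix.det_fin_two] at hd
  have hd1 : k.1 0 0 * k.1 1 1 - k.1 0 1 * k.1 1 0 = 1 := hd
  have b0 : k.1 1 0 = 0 := by linarith
  refine ⟨b0, by linarith, by linarith, ?_⟩
  rw [h0] at hd1
  linarith

theorem uniq_exp {a b s t : ℝ} (ha : a * a = 1) (hb : b * b = 1)
    (h : exp s * a = b * exp t) : s = t := by
  have h1 : exp s * exp s = exp t * exp t := by
    have h2 : (exp s * a) * (exp s * a) = (b * exp t) * (b * exp t) := by rw [h]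
    have h3 : (exp s * a) * (exp s * a) = (exp s * exp s) * (a * a) := by ring
    have h4 : (b * exp t) * (b * exp t) = (exp t * exp t) * (b * b) := by ring
    rw [h3, h4, ha, hb, mul_one, mul_one] at h2
    exact h2
  rw [← exp_add, ← exp_add] at h1
  have := exp_injective h1
  linarith

theorem uniq : C_uniq := by
  intro D _ _ T P p q k hk hJ
  have h1 : ∀ d, (k d).1 1 0 = 0 := fun d =>
    (uniq_k (hk d).1 (hk d).2.2 (hk (T.sg d)).2.2).1
  have h2 : ∀ d, (k d).1 1 1 = (k d).1 0 0 ∧ (k d).1 0 0 * (k d).1 0 0 = 1 := by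
    intro d
    obtain ⟨-, a1, a2, a3⟩ := uniq_k (hk d).1 (hk d).2.2 (hk (T.sg d)).2.2
    rw [h1 (T.sg d)] at a2
    have a4 : (k d).1 1 1 = (k d).1 0 0 := by linarith
    exact ⟨a4, by rw [a4] at a3; exact a3⟩
  have e1 : p.1 = q.1 := by
    funext d
    have h3 := congrArg Subtype.val (hk d).2.1
    rw [Matrix.SpecialLinearGroup.coe_mul, Matrix.SpecialLinearGroup.coe_mul] at h3
    have h4 := congrFun (congrFun h3 0) 1
    rw [Matrix.mul_apply, Matrix.mul_apply, Fin.sum_univ_two, Fin.sum_univ_two] at h4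
    have x00 : (E (p.1 d)).1 0 0 = 0 := rfl
    have x01 : (E (p.1 d)).1 0 1 = exp (p.1 d / 2) := rfl
    have y01 : (E (q.1 d)).1 0 1 = exp (q.1 d / 2) := rfl
    rw [x00, x01, y01] at h4
    have z1 : (k d).1 0 1 = 0 := (hk d).2.2
    have z2 := (h2 (T.io d)).1
    have h5 : exp (p.1 d / 2) * (k (T.io d)).1 0 0 = (k d).1 0 0 * exp (q.1 d / 2) := by
      have : 0 * (k (T.io d)).1 0 1 + exp (p.1 d / 2) * (k (T.io d)).1 1 1 =
        (k d).1 0 0 * exp (q.1 d / 2) + (k d).1 0 1 * (E (q.1 d)).1 1 1 := h4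
      rw [z1, z2] at this
      linarith
    have := uniq_exp (h2 (T.io d)).2 (h2 d).2 h5
    linarith
  have e2 : p.2 = q.2 := by
    have h3 := congrArg Subtype.val hJ
    rw [Matrix.SpecialLinearGroup.coe_mul, Matrix.SpecialLinearGroup.coe_mul] at h3
    have h4 := congrFun (congrFun h3 0) 0
    rw [Matrix.mul_apply, Matrix.mul_apply, Fin.sum_univ_two, Fin.sum_univ_two] at h4
    have x00 : (P.J p).1 0 0 = exp (p.2 / 2) := rfl
    have x01 : (P.J p).1 0 1 = 0 := rfl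
    have y00 : (P.J q).1 0 0 = exp (q.2 / 2) := rfl
    rw [x00, x01, y00] at h4
    have z1 : (k P.u).1 0 1 = 0 := (hk P.u).2.2
    have h5 : exp (p.2 / 2) * (k P.v).1 0 0 = (k P.u).1 0 0 * exp (q.2 / 2) := by
      have : exp (p.2 / 2) * (k P.v).1 0 0 + 0 * (k P.v).1 1 0 =
        (k P.u).1 0 0 * exp (q.2 / 2) + (k P.u).1 0 1 * (P.J q).1 1 0 := h4
      rw [z1] at this
      linarith
    have := uniq_exp (h2 P.v).2 (h2 P.u).2 h5
    linarith
  exact Prod.ext e1 e2

end Run7.h468.DG
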